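import Pool.Agent.Q192.QD.Main
import Pool.Agent.Q192.QD.Many
import Pool.Agent.Y771.KF.MSP

/-!
# The modular Schanuel conjecture with derivatives at tuples of special points

If `τ_1, …, τ_n` are special (quadratic) points of the upper half-plane, pairwise not equivalent under `GL_2^+(ℚ)` and not
equivalent to `ρ`, then the special closure `U` of `(τ_1, …, τ_n)` is the point, `dim U = 0` and `dim ⟨U⟩ = n`: the
conjecture predicts that the field generated by the `j'(τ_l)`, `j''(τ_l)` has transcendence degree `n`, so `j'(τ_1), …,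
j'(τ_n)` should be algebraically independent (for `n = 1` this is known, for `n ≥ 2` it is an open problem on products of
values of the Gamma function, by the formula of Chowla and Selberg). More generally every block of constant coordinates,
not equivalent to `ρ`, should add `1` to the transcendence degree.

Here the points are **all** quadratic points of height at most `T` in given compact sets `K_1, …, K_n`, each in its own
quadratic field: there are at least `c T^(3n)` `n`-tuples. We prove: with the exception of `C T^(3n-1+ε)` tuples the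
numbers `j'(τ_1), …, j'(τ_n)` satisfy no relation (even an approximate one) of degree at most `d` in each variable whose
coefficients are combinations of arbitrary complex numbers `ξ_1, …, ξ_g` with coefficients which are integers of the field
`ℚ(τ_1, …, τ_n)` all of whose conjugates are at most `T^A`. The same is true for all `4 p n` numbers `exp (-2πi z)`, `j (z)`,
`j' (z)`, `j'' (z)` at the points `z = s_k τ_l`, where `s_1, …, s_p` are positive real numbers, linearly independent over `ℚ`.
For `s_1 = 1` these are the special points `τ_l` themselves; there `j (τ_l)` is algebraic, but its degree, a class number,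
is unbounded, and for almost all tuples there are no relations of bounded degree between these numbers at all. The numbers
`ξ_i` may be the monomials of bounded degree in `π` and in the numbers `z`, `j (z)`, `j' (z)`, `j'' (z)` at any given points
`z`, special or not: in this sense, and in bounded degree and height, almost all `n`-tuples of special points add `n` to
the transcendence degree.

In the starting results of the pool the points are in one number field (`MP_f58a57_nt.NumberFieldPoints`), or their
invariants are integers, or algebraic integers of bounded degree (never the case at almost all special points).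

Proof: the counting theorem over all rings of integers of bounded degree (`Pool.Agent.Y124`) for the compositum of the `n`
quadratic fields, with the points of the `l`-th field in the `l`-th place, summed over the tuples of fields; there are
`O(T^2)` fields and about `T^3` points. The independence of the functions is in `Pool.Agent.TH21.MS`, `Pool.Agent.Y771`.
-/

set_option autoImplicit false

open Filter Topology

namespace Pool.Agent.Results.MP_5e64e7_nt.AlmostAllSpecialTuples

/-- the normalised Eisenstein series of weight `4` -/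
noncomputable def E4 (τ : ℂ) : ℂ :=
  1 + 240 * ∑' m : ℕ, ((ArithmeticFunction.sigma 3 (m + 1) : ℕ) : ℂ) *
    Complex.exp (2 * (Real.pi : ℂ) * Complex.I * τ) ^ (m + 1)

/-- the normalised Eisenstein series of weight `6` -/
noncomputable def E6 (τ : ℂ) : ℂ :=
  1 - 504 * ∑' m : ℕ, ((ArithmeticFunction.sigma 5 (m + 1) : ℕ) : ℂ) *
    Complex.exp (2 * (Real.pi : ℂ) * Complex.I * τ) ^ (m + 1)

/-- the modular invariant `j = q⁻¹ + 744 + 196884 q + ⋯` -/
noncomputable def j (τ : ℂ) : ℂ := 1728 * E4 τ ^ 3 / (E4 τ ^ 3 - E6 τ ^ 2)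

/-- `exp (-2πi z), j (z), j' (z), j'' (z)` (complex derivatives) -/
noncomputable def jet (z : ℂ) : Fin 4 → ℂ :=
  ![Complex.exp (-(2 * (Real.pi : ℂ) * Complex.I * z)), j z, deriv j z, deriv (deriv j) z]

/-- The special points of height at most `T`: the points of the upper half-plane which are zeros of quadratic
polynomials with integral coefficients of absolute value at most `T`. -/
def Special (T : ℝ) : Set ℂ :=
  {τ | 0 < τ.im ∧ ∃ a b c : ℤ, a ≠ 0 ∧ |(a : ℝ)| ≤ T ∧ |(b : ℝ)| ≤ T ∧ |(c : ℝ)| ≤ T ∧ (a : ℂ) * τ ^ 2 + b * τ + c = 0}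

/-- The algebraic integers of the field generated by `S` all of whose conjugates have absolute value at most `H`. -/
def Integers (S : Set ℂ) (H : ℝ) : Set ℂ :=
  {c | c ∈ IntermediateField.adjoin ℚ S ∧ IsIntegral ℤ c ∧ ∀ z ∈ (minpoly ℚ c).aroots ℂ, ‖z‖ ≤ H}

/-- The `n`-tuples `τ` of special points of height at most `T`, with `τ_l ∈ K_l`, for which there is a polynomial `P` in
`4 p n` variables, of degree at most `d` in each variable, with coefficients of the form `∑ ξ_i c_i`, where the `c_i` are
integers of the field `ℚ(τ_1, …, τ_n)` all of whose conjugates have absolute value at most `T ^ A`, such that the value of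
`P` at the numbers `exp (-2πi z), j (z), j' (z), j'' (z)`, `z = s_k τ_l`, is at most `T ^ (-B)` times the absolute value of
some nonzero coefficient of `P`. -/
def Exceptional {n p g : ℕ} (d : ℕ) (K : Fin n → Set ℂ) (s : Fin p → ℝ) (ξ : Fin g → ℂ) (A B T : ℝ) :
    Set (Fin n → ℂ) :=
  {τ | (∀ l, τ l ∈ K l ∧ τ l ∈ Special T) ∧ ∃ P : MvPolynomial (Fin n × (Fin p × Fin 4)) ℂ, (∀ x, P.degreeOf x ≤ d) ∧
    (∀ e, ∃ c : Fin g → ℂ, (∀ i, c i ∈ Integers (Set.range τ) (T ^ A)) ∧ P.coeff e = ∑ i, ξ i * c i) ∧
    ∃ e₀, P.coeff e₀ ≠ 0 ∧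
      ‖MvPolynomial.aeval (fun x : Fin n × (Fin p × Fin 4) => jet ((s x.2.1 : ℂ) * τ x.1) x.2.2) P‖ ≤
        T ^ (-B) * ‖P.coeff e₀‖}

theorem locInd {p : ℕ} (s : Fin p → ℝ) (hs0 : ∀ i, 0 < s i) (hs : ∀ c : Fin p → ℤ, ∑ k, (c k : ℝ) * s k = 0 → c = 0)
    (t : ℂ) (ht : 0 < t.im) : Y124.LocInd (Y771.KF.fP s) t := by
  intro P hP
  apply Y771.KF.fP_ind s hs0 hs
  have han : AnalyticOnNhd ℂ (fun z => MvPolynomial.eval (fun o : Option (Fin p × Fin 4) => o.elim z fun y =>
      Y771.KF.fP s y z) P) {z : ℂ | 0 < z.im} := by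
    intro z hz
    have e1 : (fun z => MvPolynomial.eval (fun o : Option (Fin p × Fin 4) => o.elim z fun y => Y771.KF.fP s y z) P) =
        fun z => ∑ e ∈ P.support, P.coeff e * ∏ o, (o.elim z fun y => Y771.KF.fP s y z) ^ e o := by
      funext z
      rw [MvPolynomial.eval_eq']
    rw [e1]
    refine Finset.analyticAt_fun_sum _ fun e _ => analyticAt_const.mul (Finset.analyticAt_fun_prod _ fun o _ => ?_)
    refine AnalyticAt.pow ?_ _
    cases o with
    | none => exact analyticAt_id
    | some y => exact Y771.KF.fP_an s hs0 y z hz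
  exact han.eqOn_zero_of_preconnected_of_eventuallyEq_zero Y771.KF.preconn_H ht hP

/-- Let `K_1, …, K_n` be compact subsets of the upper half-plane and `s_1, …, s_p` positive real numbers, linearly
independent over `ℚ`. The number of the special points of height at most `T` in `K_l` is at least `c T^3`, if `K_l` has an
interior point. For all `g`, `d`, `A` and `ε > 0` there are `B`, `C`, `T₀` such that for all complex numbers
`ξ_1, …, ξ_g` and all `T ≥ T₀` the number of the exceptional `n`-tuples is at most `C T ^ (3 n - 1 + ε)`. -/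
theorem result {n p : ℕ} (K : Fin n → Set ℂ) (hK : ∀ l, IsCompact (K l)) (hKH : ∀ l, ∀ z ∈ K l, 0 < z.im)
    (s : Fin p → ℝ) (hs0 : ∀ i, 0 < s i) (hs : ∀ c : Fin p → ℤ, ∑ i, (c i : ℝ) * s i = 0 → c = 0) :
    (∀ l, (interior (K l)).Nonempty → ∃ c T₁ : ℝ, 0 < c ∧ ∀ T : ℝ, T₁ ≤ T →
      (K l ∩ Special T).Finite ∧ c * T ^ 3 ≤ ((K l ∩ Special T).ncard : ℝ)) ∧
    ∀ (g d : ℕ) (A ε : ℝ), 0 < ε → ∃ B C T₀ : ℝ, ∀ (ξ : Fin g → ℂ) (T : ℝ), T₀ ≤ T →
      (Exceptional d K s ξ A B T).Finite ∧
        ((Exceptional d K s ξ A B T).ncard : ℝ) ≤ C * T ^ (3 * (n : ℝ) - 1 + ε) := by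
  classical
  refine ⟨?_, ?_⟩
  · rintro l ⟨τ₀, hτ₀⟩
    obtain ⟨c, T₁, hc, H⟩ := Q192.QD.many_quad (K l) τ₀ (hKH l τ₀ (interior_subset hτ₀)) hτ₀
    exact ⟨c, T₁, hc, fun T hT => ⟨Q192.QD.quad_fin T (K l), H T hT⟩⟩
  · intro g d A ε hε
    obtain ⟨B, C, T₀, H⟩ := Q192.QD.quad_main (κ := Fin p × Fin 4) (η := Fin g) n d
      (fun _ z q => Y771.KF.fP s q z) K
      (fun g' l => Y124.oneV_of g' (Y771.KF.fP s) (K l) (hK l) (fun i t ht => Y771.KF.fP_an s hs0 i t (hKH l t ht))
        fun t ht => locInd s hs0 hs t (hKH l t ht)) A ε hε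
    refine ⟨B, C, T₀, fun ξ T hT => H ξ T hT _ ?_⟩
    rintro τ ⟨h1, P, hPd, hPc, e₀, he₀, hs'⟩
    exact ⟨h1, P, hPd, hPc, e₀, he₀, hs'⟩

end Pool.Agent.Results.MP_5e64e7_nt.AlmostAllSpecialTuples
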