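import Pool.Agent.Q229.RAE
import Pool.Agent.TH21.MS.NomeMain

/-!
# Values of `j`, `j'`, `j''` at ALL rational nomes near almost every real point

For `n`-tuples of rational numbers `0 < q_k < 1` let `z_k = log q_k / (2πi)`. We consider the `4 n + 1` numbers `π`,
`log q_k`, `j (z_k)`, `D j (z_k)`, `D² j (z_k)`, `D = (1/2πi) d/dz`.

The starting file `AlmostAllRationalNomes` bounds the number of the exceptional tuples of height `T` by `T^(2(n-1)+β)` for some
`β < 2`; with the counting theorem of `Pool.Agent.Y120.RealPolys` (`β` arbitrarily small) and coverings we obtain all rational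
points near all real points outside a set of small Hausdorff dimension.
-/

set_option autoImplicit false

open MeasureTheory Filter

namespace Pool.Agent.Results.MP_5e64e7_nt.RationalsNearRealPoints

/-- the normalised Eisenstein series of weight `4` -/
noncomputable def E4 (τ : ℂ) : ℂ :=
  1 + 240 * ∑' m : ℕ, ((ArithmeticFunction.sigma 3 (m + 1) : ℕ) : ℂ) *
    Complex.exp (2 * (Real.pi : ℂ) * Complex.I * τ) ^ (m + 1)

/-- the normalised Eisenstein series of weight `6` -/
noncomputable def E6 (τ : ℂ) : ℂ :=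
  1 - 504 * ∑' m : ℕ, ((ArithmeticFunction.sigma 5 (m + 1) : ℕ) : ℂ) *
    Complex.exp (2 * (Real.pi : ℂ) * Complex.I * τ) ^ (m + 1)

/-- the modular invariant `j = q⁻¹ + 744 + 196884 q + ⋯` -/
noncomputable def j (τ : ℂ) : ℂ := 1728 * E4 τ ^ 3 / (E4 τ ^ 3 - E6 τ ^ 2)

/-- the point `z = log x / (2πi)` of the upper half-plane, `exp (2πi z) = x`, for `0 < x < 1` -/
noncomputable def z (x : ℝ) : ℂ := (Real.log x : ℂ) / (2 * (Real.pi : ℂ) * Complex.I)

/-- `log x`, `j (z)`, `D j (z)`, `D² j (z)`, where `D = (1/2πi) d/dz` -/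
noncomputable def four (x : ℝ) : Fin 4 → ℂ :=
  ![(Real.log x : ℂ), j (z x), deriv j (z x) / (2 * (Real.pi : ℂ) * Complex.I),
    deriv (deriv j) (z x) / (2 * (Real.pi : ℂ) * Complex.I) ^ 2]

/-- the `4 n + 1` numbers `π` and `log x_k`, `j (z_k)`, `D j (z_k)`, `D² j (z_k)` -/
noncomputable def numbers {n : ℕ} (x : Fin n → ℚ) (i : Option (Fin n × Fin 4)) : ℂ :=
  i.elim (Real.pi : ℂ) fun p => four (x p.1) p.2

/-- **Theorem.** Let `n ≥ 1`, and consider the numbers `π`, `log q_k`, `j (z_k)`, `D j (z_k)`, `D² j (z_k)` (domain: `0 < x_k < 1`).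
Then for every `τ > 0` there is a set `Z ⊂ ℝ^n` of Hausdorff dimension at most
`2 (n - 1) / τ` (dimension `0` for `n = 1`), and of Lebesgue measure zero if `2 (n - 1) < n τ`, such that for all `x ∉ Z` in the domain,
all `d`, `A`, some `B` and all sufficiently large `T` the following holds for ALL rational points `q` with denominators at most `T`
and `|x_j - q_j| ≤ T ^ (-τ)`: every nonzero integer polynomial of degree at most `d` in each variable with coefficients at
most `T ^ A` takes at these numbers a value larger than `T ^ (-B)` in absolute value. -/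
theorem result (n : ℕ) (hn : 1 ≤ n) (τ : ℝ) (hτ : 0 < τ) :
    ∃ Z : Set (Fin n → ℝ), dimH Z ≤ ENNReal.ofReal (2 * ((n : ℝ) - 1) / τ) ∧
      (2 * ((n : ℝ) - 1) < n * τ → volume Z = 0) ∧
      ∀ x : Fin n → ℝ, (∀ j, 0 < x j ∧ x j < 1) → x ∉ Z → ∀ (d : ℕ) (A : ℝ), ∃ B : ℝ, ∀ᶠ T : ℝ in atTop,
        ∀ q : Fin n → ℚ, (∀ j, ((q j).den : ℝ) ≤ T ∧ |x j - q j| ≤ T ^ (-τ)) →
        ∀ P : MvPolynomial (Option (Fin n × Fin 4)) ℤ, P ≠ 0 → (∀ z, P.degreeOf z ≤ d) →
          (∀ u, |((P.coeff u : ℤ) : ℝ)| ≤ T ^ A) → T ^ (-B) < ‖MvPolynomial.aeval (numbers q) P‖ := by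
  refine Pool.Agent.Q229.RA.masterO hn (fun _ i t => Pool.Agent.TH21.MS.fJ i t) (fun _ => 0) (fun _ => Set.Ioo 0 1)
    (fun _ => isOpen_Ioo) (fun _ i => Pool.Agent.TH21.MS.fJ_an i) ?_ (fun q => numbers q)
    (fun _ => rfl) ?_ τ hτ
  · intro j a b hab hsub d
    exact Pool.Agent.TH21.MS.mahler d a b (hsub ⟨le_rfl, hab.le⟩).1 hab (hsub ⟨hab.le, le_rfl⟩).2
  · intro q hq j i
    rw [pow_zero, one_mul]
    exact Pool.Agent.TH21.MS.four_eq _ (hq j) i

end Pool.Agent.Results.MP_5e64e7_nt.RationalsNearRealPoints
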