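import Mathlib
import Pool.Agent.Q51.Sch.Full

/-!
# The modular Schanuel conjecture with derivatives, for all tuples, is a statement on real numbers

Let `j` be the modular invariant. The conjecture says that for ALL points `z₁, …, z_n` of the upper half plane

  `trdeg ℚ (z_i, j (z_i), j' (z_i), j'' (z_i)) ≥ 3 m₁ + m₂`,

where `m₁` is the number of the orbits of `GL₂⁺(ℚ)` which contain a coordinate which is not quadratic, and `m₂` is
the number of the orbits which contain a quadratic coordinate outside of `SL₂(ℤ) ρ`, `ρ = -1/2 + (√3/2) i`. We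
prove that it is equivalent to the following statement:

for all points `x₁, …, x_r` and all points `w₁, …, w_s` of geodesics with rational equations, all with
`j' ≠ 0`, such that the `2 r + s` points `x_i`, `-x̄_i`, `w_k` are pairwise inequivalent, the transcendence degree of the
field generated by the *real* numbers `Re`, `Im` of `z, j (z), j' (z), j'' (z)`, `z` among `x_i`, `w_k`, is at least
`2 ∑ weight (x_i) + ∑ weight (w_k)`; the weight is `1` for quadratic points and `3` for the others.

Moreover one may assume in addition that the `2 r + s` points represent the orbits of a given finite set of points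
with `j' ≠ 0`, which are quadratic or for which the four numbers `z, j (z), j' (z), j'' (z)` are algebraically dependent.

Proof. For tuples of pairwise inequivalent points with `j' ≠ 0` see the result on MP_f58a57_nt
(`Pool.Agent.Q51.Sch.ModD`). For arbitrary tuples we need points `w` equivalent to a given point `z` outside of
`SL₂(ℤ) ρ` with `j' (w) ≠ 0`, such that `j (w)`, `j' (w)`, `j'' (w)` are algebraic over the field of `z, j (z), j' (z), j'' (z)`.
If `j' (z) = 0` then `g₂` or `g₃` vanishes at the lattice `Λ = ℤ + ℤ z` (`j'` is a multiple of `g₂² g₃ / (g₂³ - 27 g₃²)`,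
`Pool.Agent.Y685`), hence `ρ Λ = Λ` or `i Λ = Λ`, since a lattice is determined by its invariants
(`Pool.Agent.Y577`), and `z` lies in `SL₂(ℤ) ρ` or is the fixed point of an element `γ` of order two. In the second case
`j'' (z) ≠ 0`, and `j (γ t) = j (t)` shows `j''' (z) = - (3/2) γ'' (z) j'' (z)`. Let `J`, `V` be the Taylor series of `j` and
`j ∘ g`, `w = g z`, at `z` and `D` a derivation of `ℂ` which kills `z, j (z), j'' (z)`. Then `J' · D (V) = D (J) · V'`,
`D (J)` vanishes to order four, `J'` to order one, and so `D` kills `V (0)`, `V' (0)`, `V'' (0)`.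
-/

set_option autoImplicit false

open Set UpperHalfPlane ModularForm

namespace Pool.Agent.Results.MP_5e64e7_nt.RealParts

/-- the modular invariant `j = E₄³ / Δ = q⁻¹ + 744 + 196884 q + ⋯` -/
noncomputable def j (z : ℍ) : ℂ := E₄ z ^ 3 / discriminant z

/-- `j` as a function of a complex variable (`J (t) = j (t)` for `Im t > 0`; the values elsewhere play no role) -/
noncomputable def J (t : ℂ) : ℂ := j (ofComplex t)

/-- the numbers `z, j (z), j' (z), j'' (z)` -/
noncomputable def numbers (z : ℍ) : Set ℂ := {(z : ℂ), j z, deriv J z, deriv (deriv J) z}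

/-- `w = (a z + b) / (c z + d)` for a rational matrix with positive determinant -/
def Equivalent (z w : ℍ) : Prop :=
  ∃ a b c d : ℚ, 0 < a * d - b * c ∧ (w : ℂ) * ((c : ℂ) * z + d) = (a : ℂ) * z + b

/-- the orbit of `z` under `GL₂⁺(ℚ)` -/
def orbit (z : ℍ) : Set ℍ := {w | Equivalent z w}

/-- quadratic points -/
def Quadratic (z : ℍ) : Prop :=
  ∃ a b c : ℤ, (a ≠ 0 ∨ b ≠ 0 ∨ c ≠ 0) ∧ (a : ℂ) * (z : ℂ) ^ 2 + b * z + c = 0

/-- `ρ = -1/2 + (√3/2) i` -/
noncomputable def rho : ℂ := -1 / 2 + (Real.sqrt 3 / 2 : ℝ) * Complex.I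

/-- `z` lies in `SL₂(ℤ) ρ` -/
def InOrbitOfRho (z : ℍ) : Prop :=
  ∃ a b c d : ℤ, a * d - b * c = 1 ∧ (z : ℂ) * ((c : ℂ) * rho + d) = (a : ℂ) * rho + b

/-- the lower bound of the conjecture: three times the number of the orbits of the coordinates which are not
quadratic plus the number of the orbits of the quadratic coordinates outside of `SL₂(ℤ) ρ` -/
noncomputable def bound {n : ℕ} (z : Fin n → ℍ) : ℕ :=
  3 * {o : Set ℍ | ∃ i, ¬ Quadratic (z i) ∧ o = orbit (z i)}.ncard +
    {o : Set ℍ | ∃ i, Quadratic (z i) ∧ ¬ InOrbitOfRho (z i) ∧ o = orbit (z i)}.ncard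

open Classical in
/-- `1` for a quadratic point, `3` for the other points -/
noncomputable def weight (z : ℍ) : ℕ := if Quadratic z then 1 else 3

/-- `w` lies on a geodesic with a rational equation `a |w|² + b Re w + c = 0` -/
def OnRationalGeodesic (w : ℍ) : Prop :=
  ∃ a b c : ℤ, (a ≠ 0 ∨ b ≠ 0 ∨ c ≠ 0) ∧ (a : ℝ) * Complex.normSq (w : ℂ) + b * (w : ℂ).re + c = 0

/-- the reflection `z ↦ -z̄` -/
def reflection (z : ℍ) : ℍ := ⟨-(starRingEnd ℂ) (z : ℂ), by simpa using z.im_pos⟩

/-- the `2 r + s` points `x_i`, `-x̄_i`, `w_k` -/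
def family {r s : ℕ} (x : Fin r → ℍ) (w : Fin s → ℍ) : Fin r ⊕ Fin r ⊕ Fin s → ℍ :=
  Sum.elim x (Sum.elim (fun i => reflection (x i)) w)

/-- the real and imaginary parts of the numbers `z, j (z), j' (z), j'' (z)` -/
noncomputable def realNumbers (z : ℍ) : Set ℝ := Complex.re '' numbers z ∪ Complex.im '' numbers z

/-- `n` is at most the transcendence degree over `ℚ` of the field generated by the set `X` -/
def AtLeast (K : Type) [Field K] [Algebra ℚ K] (n : ℕ) (X : Set K) : Prop :=
  (n : Cardinal) ≤ Algebra.trdeg ℚ (IntermediateField.adjoin ℚ X)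

/-- **The modular Schanuel conjecture with derivatives, for all tuples, is a statement on real numbers.** Let `L`
be any finite set of points `z` of the upper half plane with `j' (z) ≠ 0`, each of which is quadratic or such that
`z, j (z), j' (z), j'' (z)` generate a field of transcendence degree at most three. The conjecture holds
for all tuples if and only if for all points `x₁, …, x_r` and all points `w₁, …, w_s` of rational
geodesics, all with `j' ≠ 0`, such that the points `x_i`, `-x̄_i`, `w_k` are pairwise inequivalent and represent the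
orbits of all points of `L`, the transcendence degree of the field generated by the real and
imaginary parts of the numbers `z, j (z), j' (z), j'' (z)`, `z` among `x_i`, `w_k`, is at least
`2 ∑ weight (x_i) + ∑ weight (w_k)`. -/
theorem result (L : Finset ℍ)
    (hL : ∀ z ∈ L, deriv J z ≠ 0 ∧ (Quadratic z ∨ ¬ AtLeast ℂ 4 (numbers z))) :
    (∀ (n : ℕ) (z : Fin n → ℍ), AtLeast ℂ (bound z) (⋃ i, numbers (z i))) ↔
    (∀ (r s : ℕ) (x : Fin r → ℍ) (w : Fin s → ℍ), (∀ i, deriv J (x i) ≠ 0) →
      (∀ k, deriv J (w k) ≠ 0) → (∀ k, OnRationalGeodesic (w k)) →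
      (∀ i k, i ≠ k → ¬ Equivalent (family x w i) (family x w k)) →
      (∀ z ∈ L, ∃ i, Equivalent z (family x w i)) →
      AtLeast ℝ (2 * ∑ i, weight (x i) + ∑ k, weight (w k))
        ((⋃ i, realNumbers (x i)) ∪ (⋃ k, realNumbers (w k)))) := by
  have h := Pool.Agent.Q51.Sch.Mod.main3 L (fun z hz =>
    ⟨(hL z hz).1, Pool.Agent.Q51.Sch.Mod.rk_wgt (hL z hz).1 (hL z hz).2⟩)
  simp only [← Pool.Agent.Q51.Sch.atLeast_iff] at h
  exact h

end Pool.Agent.Results.MP_5e64e7_nt.RealParts
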